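import Pool.Agent.R276.TJf

set_option autoImplicit false

/-!
Every Lipschitz interpolating family of pairs has a Beurling set.
-/

noncomputable section

open Filter Topology
open scoped ENNReal

namespace Pool.Agent.Results.MP_f46ce3_an.Beurling

variable {X : Type*} [MetricSpace X] {I : Type*}

/-- `g` belongs to `Lip_0(X)` (base point `o`) and its norm, the smallest Lipschitz constant, is
at most `K` -/
def LipNormLe (o : X) (K : ℝ) (g : X → ℝ) : Prop :=
  g o = 0 ∧ ∀ p q, |g p - g q| ≤ K * dist p q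

/-- the difference quotient `D_{p,q} g` -/
def DQ (g : X → ℝ) (p q : X) : ℝ := (g p - g q) / dist p q

/-- the family of pairs `(x i, y i)` is a Lipschitz interpolating set: the two points of each pair
are distinct, and `g ↦ (D_{x i, y i} g)_i` maps `Lip_0(X)` onto the bounded families -/
def Interpolating (o : X) (x y : I → X) : Prop :=
  (∀ i, x i ≠ y i) ∧ ∀ α : I → ℝ, (∃ C : ℝ, ∀ i, |α i| ≤ C) →
    ∃ (K : ℝ) (g : X → ℝ), LipNormLe o K g ∧ ∀ i, DQ g (x i) (y i) = α i

/-- the constants `K ≥ 1` such that every family in the closed unit ball of `ℓ_∞(I)` has a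
preimage of norm at most `K` -/
def Admissible (o : X) (x y : I → X) : Set ℝ :=
  {K | 1 ≤ K ∧ ∀ α : I → ℝ, (∀ i, |α i| ≤ 1) →
    ∃ g : X → ℝ, LipNormLe o K g ∧ ∀ i, DQ g (x i) (y i) = α i}

/-- the interpolation constant `M` -/
def interpConst (o : X) (x y : I → X) : ℝ := sInf (Admissible o x y)

/-- `f` is a Beurling set, with constant `M`, for the family of pairs `(x i, y i)` -/
def IsBeurling (o : X) (x y : I → X) (M : ℝ) (f : I → X → ℝ) : Prop :=
  (∀ i, ∃ K : ℝ, LipNormLe o K (f i)) ∧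
    (∀ i, DQ (f i) (x i) (y i) = 1) ∧ (∀ i j, i ≠ j → DQ (f i) (x j) (y j) = 0) ∧
    ∀ p q, p ≠ q → Summable (fun i => |DQ (f i) p q|) ∧ ∑' i, |DQ (f i) p q| ≤ M

/-! ### the constants exist, by the open mapping theorem -/

/-- the space of families of difference quotients -/
def Esp (X : Type*) [MetricSpace X] : Submodule ℝ (lp (fun _ : X × X => ℝ) ∞) where
  carrier := {φ | ∀ p q r : X, dist p q * φ (p, q) + dist q r * φ (q, r) = dist p r * φ (p, r)}
  add_mem' := by
    intro φ ψ h1 h2 p q r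
    have e1 := h1 p q r
    have e2 := h2 p q r
    simp only [lp.coeFn_add, Pi.add_apply]
    linear_combination e1 + e2
  zero_mem' := by
    intro p q r
    simp
  smul_mem' := by
    intro c φ h p q r
    have e1 := h p q r
    simp only [lp.coeFn_smul, Pi.smul_apply, smul_eq_mul]
    linear_combination c * e1

theorem continuous_coord {ι : Type*} (i : ι) :
    Continuous (fun φ : lp (fun _ : ι => ℝ) ∞ => φ i) := by
  have h : LipschitzWith 1 (fun φ : lp (fun _ : ι => ℝ) ∞ => φ i) := by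
    refine LipschitzWith.of_dist_le_mul fun φ ψ => ?_
    rw [NNReal.coe_one, one_mul, Real.dist_eq, dist_eq_norm]
    have := lp.norm_apply_le_norm ENNReal.top_ne_zero (φ - ψ) i
    rwa [lp.coeFn_sub, Pi.sub_apply, Real.norm_eq_abs] at this
  exact h.continuous

theorem isClosed_Esp : IsClosed ((Esp X : Submodule ℝ (lp (fun _ : X × X => ℝ) ∞)) :
    Set (lp (fun _ : X × X => ℝ) ∞)) := by
  have : ((Esp X : Submodule ℝ (lp (fun _ : X × X => ℝ) ∞)) :
      Set (lp (fun _ : X × X => ℝ) ∞)) = ⋂ p : X, ⋂ q : X, ⋂ r : X,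
      {φ | dist p q * φ (p, q) + dist q r * φ (q, r) = dist p r * φ (p, r)} := by
    ext φ
    simp only [Set.mem_iInter]
    rfl
  rw [this]
  refine isClosed_iInter fun p => isClosed_iInter fun q => isClosed_iInter fun r => ?_
  exact isClosed_eq (((continuous_coord _).const_mul _).add ((continuous_coord _).const_mul _))
    ((continuous_coord _).const_mul _)

/-- restriction of the coordinates -/
def Tmap (x y : I → X) : Esp X →L[ℝ] lp (fun _ : I => ℝ) ∞ :=
  LinearMap.mkContinuous
    { toFun := fun φ => ⟨fun i => φ.1 (x i, y i), memℓp_infty_iff.2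
        ⟨‖φ.1‖, by
          rintro _ ⟨i, rfl⟩
          exact lp.norm_apply_le_norm ENNReal.top_ne_zero φ.1 _⟩⟩
      map_add' := fun φ ψ => rfl
      map_smul' := fun c φ => rfl } 1 (fun φ => by
        rw [one_mul]
        refine lp.norm_le_of_forall_le (norm_nonneg _) fun i => ?_
        exact lp.norm_apply_le_norm ENNReal.top_ne_zero φ.1 _)

theorem Tmap_apply (x y : I → X) (φ : Esp X) (i : I) : Tmap x y φ i = φ.1 (x i, y i) := rfl

theorem dist_mul_DQ (g : X → ℝ) (p q : X) : dist p q * DQ g p q = g p - g q := by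
  unfold DQ
  by_cases h : p = q
  · subst h; simp
  · rw [mul_div_cancel₀]
    exact dist_ne_zero.2 h

theorem admissible_nonempty {o : X} {x y : I → X} (h : Interpolating o x y) :
    (Admissible o x y).Nonempty := by
  have : CompleteSpace (Esp X) := isClosed_Esp.completeSpace_coe
  have hsurj : Function.Surjective (Tmap x y) := by
    intro α
    obtain ⟨K, g, ⟨-, hg⟩, hα⟩ := h.2 (fun i => α i) ⟨‖α‖, fun i => by
      rw [← Real.norm_eq_abs]
      exact lp.norm_apply_le_norm ENNReal.top_ne_zero α i⟩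
    have hmem : Memℓp (fun z : X × X => DQ g z.1 z.2) ∞ := by
      refine memℓp_infty_iff.2 ⟨|K|, ?_⟩
      rintro _ ⟨⟨p, q⟩, rfl⟩
      show ‖DQ g p q‖ ≤ |K|
      unfold DQ
      rw [Real.norm_eq_abs, abs_div, abs_of_nonneg (dist_nonneg (x := p) (y := q))]
      refine div_le_of_le_mul₀ dist_nonneg (abs_nonneg K) ?_
      exact (hg p q).trans (mul_le_mul_of_nonneg_right (le_abs_self K) dist_nonneg)
    refine ⟨⟨⟨fun z => DQ g z.1 z.2, hmem⟩, fun p q r => ?_⟩, ?_⟩
    · show dist p q * DQ g p q + dist q r * DQ g q r = dist p r * DQ g p r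
      rw [dist_mul_DQ, dist_mul_DQ, dist_mul_DQ]
      ring
    · ext i
      exact hα i
  obtain ⟨C, hC, hCT⟩ := (Tmap x y).exists_preimage_norm_le hsurj
  refine ⟨max C 1, le_max_right _ _, fun α hα => ?_⟩
  have hαm : Memℓp α ∞ := memℓp_infty_iff.2 ⟨1, by
    rintro _ ⟨i, rfl⟩
    exact hα i⟩
  obtain ⟨φ, hφ, hφn⟩ := hCT ⟨α, hαm⟩
  have hα1 : ‖(⟨α, hαm⟩ : lp (fun _ : I => ℝ) ∞)‖ ≤ 1 :=
    lp.norm_le_of_forall_le zero_le_one fun i => hα i
  have hφC : ‖φ.1‖ ≤ C := by
    refine hφn.trans ?_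
    calc C * _ ≤ C * 1 := mul_le_mul_of_nonneg_left hα1 hC.le
      _ = C := mul_one C
  have hg : ∀ p q, dist p o * φ.1 (p, o) - dist q o * φ.1 (q, o) = dist p q * φ.1 (p, q) := by
    intro p q
    have := φ.2 p q o
    linarith
  refine ⟨fun p => dist p o * φ.1 (p, o), ⟨by simp only [dist_self, zero_mul], fun p q => ?_⟩,
    fun i => ?_⟩
  · simp only
    rw [hg, abs_mul, abs_of_nonneg dist_nonneg, mul_comm]
    refine mul_le_mul_of_nonneg_right ?_ dist_nonneg
    refine le_trans ?_ (hφC.trans (le_max_left _ _))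
    exact lp.norm_apply_le_norm ENNReal.top_ne_zero φ.1 _
  · unfold DQ
    rw [hg, mul_comm, mul_div_assoc, div_self (dist_ne_zero.2 (h.1 i)), mul_one]
    exact congrArg (fun ψ : lp (fun _ : I => ℝ) ∞ => ψ i) hφ

/-- Every Lipschitz interpolating family of pairs of a pointed metric space has a Beurling set
with the interpolation constant. -/
theorem result.{u, v} : ∀ (X : Type u) [MetricSpace X] (o : X) (I : Type v) [Nonempty I]
    (x y : I → X), Interpolating o x y →
    (Admissible o x y).Nonempty ∧ ∃ f : I → X → ℝ, IsBeurling o x y (interpConst o x y) f := by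
  intro X _ o I _ x y h
  have hne := admissible_nonempty h
  refine ⟨hne, ?_⟩
  set M := interpConst o x y with hM
  have hM1 : 1 ≤ M := le_csInf hne fun K hK => hK.1
  have hbdd : BddBelow (Admissible o x y) := ⟨1, fun K hK => hK.1⟩
  have hI : ∀ K, M < K → Pool.Agent.R276.TJ.Interp x y K := by
    intro K hK α hα
    obtain ⟨K', hK', hlt⟩ := exists_lt_of_csInf_lt hne hK
    obtain ⟨g, ⟨-, hg⟩, hgα⟩ := hK'.2 α hα
    refine ⟨g, fun p q => (hg p q).trans ?_, fun i => ?_⟩
    · exact mul_le_mul_of_nonneg_right hlt.le dist_nonneg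
    · rw [← hgα i, mul_comm, dist_mul_DQ]
  obtain ⟨f, hf0, hf1, hf2⟩ := Pool.Agent.R276.TJ.beurling o h.1 hM1 hI
  have hS : ∀ p q, p ≠ q → ∀ S : Finset I, ∑ i ∈ S, |DQ (f i) p q| ≤ M := by
    intro p q hpq S
    have hd := dist_pos.2 hpq
    have e1 : ∑ i ∈ S, |DQ (f i) p q| = (∑ i ∈ S, |f i p - f i q|) / dist p q := by
      rw [Finset.sum_div]
      refine Finset.sum_congr rfl fun i _ => ?_
      unfold DQ
      rw [abs_div, abs_of_pos hd]
    rw [e1, div_le_iff₀ hd]
    exact hf2 p q S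
  refine ⟨f, fun i => ⟨M, hf0 i, fun p q => ?_⟩, fun i => ?_, fun i j hij => ?_, fun p q hpq => ?_⟩
  · have := hf2 p q {i}
    rwa [Finset.sum_singleton] at this
  · unfold DQ
    rw [hf1, if_pos rfl, div_self (dist_ne_zero.2 (h.1 i))]
  · unfold DQ
    rw [hf1, if_neg hij, zero_div]
  · have hsum : Summable (fun i => |DQ (f i) p q|) :=
      summable_of_sum_le (fun i => abs_nonneg _) (hS p q hpq)
    exact ⟨hsum, hsum.tsum_le_of_sum_le (hS p q hpq)⟩

end Pool.Agent.Results.MP_f46ce3_an.Beurling
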